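import Pool.Agent.W783.Perc.Stmts3
import Pool.Agent.W400.PC.PT
import Pool.Agent.W975.PC.GR1
import Pool.Agent.W402.PC.Simon

set_option autoImplicit false

open MeasureTheory Set Filter
open scoped Topology

/-!
PC-USC: upper semicontinuity of the percolation probability, and the case `β = 0`.
-/

namespace Pool.Agent.W148.PC

open Pool.Agent.W783.PC
open Pool.Agent.W402.PC (reach_mono reach_mem last_exit pm_coord prob_summable isNN_iff isLg_iff)
open Pool.Agent.W975.PC (s_reach_dep s_reach_meas s_perc_meas s_int_fin)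
open Pool.Agent.W400.PC (s_tv um cf pm_eq)

variable {n : ℕ}

/-! ### `β = 0` -/

theorem pm_congr {ι : Type} (r r' : ι → unitInterval) (S : Set ι) (h : ∀ c ∈ S, r c = r' c)
    {A : Set (ι → Bool)} (hA : MeasurableSet A) (hd : DepOn A S) : pm r A = pm r' A := by
  rw [pm_eq r hA, pm_eq r' hA]
  congr 1
  ext U
  refine hd _ _ fun c hc => ?_
  unfold cf
  rw [h c hc]

theorem perc_dep (E : Set (Sym2 (V n))) (x : V n) : DepOn (Perc E x) (rel E) := by
  intro ω ω' h
  have : cl E ω univ x = cl E ω' univ x := by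
    ext y
    exact s_reach_dep n E univ x y ω ω' fun c hc => h c hc.2
  show (cl E ω univ x).Infinite ↔ (cl E ω' univ x).Infinite
  rw [this]

theorem s_nneq : S_nneq := by
  intro n m a p s
  have h1 : pm (prob (n := n) a p 0 s m) (Perc (EdI m) 0)
      = pm (prob (n := n) a p 0 s m) (Perc {e : Sym2 (V n) | isNN e} 0) := by
    apply measure_congr
    have hae : ∀ᵐ ω ∂(pm (prob (n := n) a p 0 s m)), ∀ e : Sym2 (V n), ¬ isNN e →
        ω (Sum.inr e) = false := by
      rw [ae_all_iff]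
      intro e
      by_cases he : isNN e
      · exact Filter.Eventually.of_forall fun ω h => absurd he h
      · have h0 : prob (n := n) a p 0 s m (Sum.inr e) = 0 := by
          unfold prob
          simp only
          rw [if_neg he]
          split_ifs
          · apply Subtype.ext
            show 1 - Real.exp (-(((0 : NNReal) : ℝ) * _)) = 0
            simp
          · rfl
        have h2 : pm (prob (n := n) a p 0 s m) {ω | ω (Sum.inr e) = true} = 0 := by
          rw [pm_coord, h0, Pool.Agent.W402.PC.bern_true]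
          simp
        have h3 : ∀ᵐ ω ∂(pm (prob (n := n) a p 0 s m)), ¬ ω (Sum.inr e) = true := by
          rw [ae_iff]
          simpa using h2
        filter_upwards [h3] with ω hω _
        simpa using hω
    filter_upwards [hae] with ω hω
    apply propext
    have hG : G (EdI m) ω univ = G {e : Sym2 (V n) | isNN e} ω univ := by
      ext x y
      constructor
      · rintro ⟨g1, g2, g3, g4, g5, g6, g7⟩
        refine ⟨g1, g2, g3, ?_, g5, g6, g7⟩
        by_contra hc
        have := hω s(x, y) hc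
        rw [this] at g7
        exact absurd g7 (by decide)
      · rintro ⟨g1, g2, g3, g4, g5, g6, g7⟩
        exact ⟨g1, g2, g3, Or.inl g4, g5, g6, g7⟩
    show (cl (EdI m) ω univ 0).Infinite ↔ (cl {e : Sym2 (V n) | isNN e} ω univ 0).Infinite
    unfold cl
    rw [hG]
  have h2 : pm (prob (n := n) a p 0 s m) (Perc {e : Sym2 (V n) | isNN e} 0)
      = pm (fun c : Ix n => match c with | Sum.inl _ => a | Sum.inr _ => p)
        (Perc {e : Sym2 (V n) | isNN e} 0) := by
    refine pm_congr _ _ (rel {e : Sym2 (V n) | isNN e}) ?_ (s_perc_meas n _ _) (perc_dep _ _)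
    rintro c (⟨x, rfl⟩ | ⟨e, he, rfl⟩)
    · rfl
    · unfold prob
      simp only
      rw [if_pos (show isNN e from he)]
  exact congrArg ENNReal.toReal (h1.trans h2)

/-! ### Upper semicontinuity -/

theorem CB_fin (L : ℕ) : (CB L L : Set (V n)).Finite := by
  refine ((Set.finite_Icc (-(L : ℤ)) L).prod
    (Set.Finite.pi' (fun _ : Fin n => Set.finite_Icc (-(L : ℤ)) L))).subset ?_
  intro z hz
  exact ⟨abs_le.1 hz.1, fun i => abs_le.1 (hz.2 i)⟩

theorem CB_mono {L L' : ℕ} (h : L ≤ L') : (CB L L : Set (V n)) ⊆ CB L' L' := by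
  have h' : (L : ℤ) ≤ L' := by exact_mod_cast h
  exact fun z hz => ⟨hz.1.trans h', fun i => (hz.2 i).trans h'⟩

theorem CB_zero (L : ℕ) : (0 : V n) ∈ (CB L L : Set (V n)) := by
  constructor
  · simp
  · intro i; simp

theorem exists_CB (z : V n) : ∃ L : ℕ, z ∈ (CB L L : Set (V n)) := by
  refine ⟨z.1.natAbs + ∑ i, (z.2 i).natAbs, ?_, fun i => ?_⟩
  · rw [← Int.natCast_natAbs]
    exact_mod_cast Nat.le_add_right _ _
  · rw [← Int.natCast_natAbs]
    have : (z.2 i).natAbs ≤ ∑ i, (z.2 i).natAbs :=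
      Finset.single_le_sum (f := fun i => (z.2 i).natAbs) (fun _ _ => Nat.zero_le _)
        (Finset.mem_univ i)
    exact_mod_cast this.trans (Nat.le_add_left _ _)

/-- the cluster is not contained in `B` -/
def AL (E : Set (Sym2 (V n))) (B : Set (V n)) : Set (Cfg n) := {ω | ¬ cl E ω univ 0 ⊆ B}

theorem AL_meas (E : Set (Sym2 (V n))) (B : Set (V n)) : MeasurableSet (AL E B) := by
  have : AL E B = ⋃ y : V n, ⋃ (_ : y ∉ B), {ω : Cfg n | (G E ω univ).Reachable 0 y} := by
    ext ω
    simp only [AL, mem_iUnion, Set.not_subset]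
    constructor
    · rintro ⟨y, hy, hyB⟩; exact ⟨y, hyB, hy⟩
    · rintro ⟨y, hyB, hy⟩; exact ⟨y, hy, hyB⟩
  rw [this]
  exact MeasurableSet.iUnion fun y => MeasurableSet.iUnion fun _ => s_reach_meas n E univ 0 y

theorem AL_inter (E : Set (Sym2 (V n))) : ⋂ L : ℕ, AL E (CB L L) ⊆ Perc E 0 := by
  intro ω hω
  rw [mem_iInter] at hω
  by_contra hfin
  have hfin' : (cl E ω univ 0).Finite := Set.not_infinite.1 hfin
  choose f hf using fun z : V n => exists_CB z
  obtain ⟨L, hL⟩ := (hfin'.image f).bddAbove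
  apply hω L
  intro z hz
  exact CB_mono (hL ⟨z, hz, rfl⟩) (hf z)

theorem Perc_sub_AL (E : Set (Sym2 (V n))) {B : Set (V n)} (hB : B.Finite) :
    Perc E 0 ⊆ AL E B := fun _ hω hsub => hω (hB.subset hsub)

theorem exists_L (r : Ix n → unitInterval) (E : Set (Sym2 (V n))) {ε : ℝ} (hε : 0 < ε) :
    ∃ L : ℕ, (pm r).real (AL E (CB L L)) ≤ (pm r).real (Perc E 0) + ε := by
  have hanti : Antitone fun L : ℕ => AL E (CB L L : Set (V n)) := by
    intro L L' h ω hω hsub
    exact hω (hsub.trans (CB_mono h))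
  have h1 := tendsto_measure_iInter_atTop (μ := pm r)
    (fun L : ℕ => (AL_meas E (CB L L : Set (V n))).nullMeasurableSet) hanti
    ⟨0, measure_ne_top _ _⟩
  have h2 : Tendsto (fun L : ℕ => (pm r).real (AL E (CB L L : Set (V n)))) atTop
      (𝓝 ((pm r).real (⋂ L : ℕ, AL E (CB L L)))) :=
    (ENNReal.tendsto_toReal (measure_ne_top _ _)).comp h1
  have h3 : (pm r).real (⋂ L : ℕ, AL E (CB L L)) ≤ (pm r).real (Perc E 0) :=
    measureReal_mono (AL_inter E) (measure_ne_top _ _)
  have h4 : ∀ᶠ L : ℕ in atTop, (pm r).real (AL E (CB L L : Set (V n)))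
      < (pm r).real (⋂ L : ℕ, AL E (CB L L)) + ε := h2.eventually (gt_mem_nhds (by linarith))
  obtain ⟨L, hL⟩ := h4.exists
  exact ⟨L, by linarith⟩

/-- the approximating event: exit from `B` by a bond to `F x` -/
def AF (E : Set (Sym2 (V n))) (B : Set (V n)) (F : V n → Finset (V n)) : Set (Cfg n) :=
  {ω | ∃ x ∈ B, ∃ y ∈ F x, y ∉ B ∧ s(x, y) ∈ E ∧ (G E ω B).Reachable 0 x ∧
    ω (Sum.inl x) = true ∧ ω (Sum.inl y) = true ∧ ω (Sum.inr s(x, y)) = true}

/-- the coordinates of `AF` -/
def DF (B : Set (V n)) (F : V n → Finset (V n)) : Set (Ix n) :=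
  Int' B ∪ ⋃ x ∈ B, ⋃ y ∈ F x, {Sum.inl x, Sum.inl y, Sum.inr s(x, y)}

theorem DF_fin {B : Set (V n)} (hB : B.Finite) (F : V n → Finset (V n)) : (DF B F).Finite := by
  refine (s_int_fin n B hB).union (hB.biUnion fun x _ => (F x).finite_toSet.biUnion fun y _ => ?_)
  exact Set.toFinite _

theorem AF_dep (E : Set (Sym2 (V n))) (B : Set (V n)) (F : V n → Finset (V n)) :
    DepOn (AF E B F) (DF B F) := by
  have key : ∀ ω ω' : Cfg n, (∀ c ∈ DF B F, ω c = ω' c) → ω ∈ AF E B F → ω' ∈ AF E B F := by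
    rintro ω ω' h ⟨x, hx, y, hy, h1, h2, h3, h4, h5, h6⟩
    have hin : ∀ c ∈ ({Sum.inl x, Sum.inl y, Sum.inr s(x, y)} : Set (Ix n)), c ∈ DF B F := by
      intro c hc
      refine Or.inr ?_
      simp only [mem_iUnion]
      exact ⟨x, hx, y, hy, hc⟩
    refine ⟨x, hx, y, hy, h1, h2, ?_, ?_, ?_, ?_⟩
    · exact (s_reach_dep n E B 0 x ω ω' fun c hc => h c (Or.inl hc.1)).1 h3
    · rw [← h _ (hin _ (by simp))]; exact h4
    · rw [← h _ (hin _ (by simp))]; exact h5
    · rw [← h _ (hin _ (by simp))]; exact h6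
  intro ω ω' h
  exact ⟨key ω ω' h, key ω' ω fun c hc => (h c hc).symm⟩

/-- the bad event -/
def BF (B : Finset (V n)) (F : V n → Finset (V n)) : Set (Cfg n) :=
  ⋃ x ∈ B, ⋃ z : {z : V n // z ∉ F x}, {ω | ω (Sum.inr s(x, (z : V n))) = true}

theorem AL_sub (E : Set (Sym2 (V n))) (B : Finset (V n)) (h0 : (0 : V n) ∈ B)
    (F : V n → Finset (V n)) : AL E (B : Set (V n)) ⊆ AF E (B : Set (V n)) F ∪ BF B F := by
  intro ω hω
  obtain ⟨w, hw, hwB⟩ := Set.not_subset.1 hω
  have h1 : ¬ (G E ω (B : Set (V n))).Reachable 0 w := by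
    intro h
    rcases reach_mem h with h | h
    · rw [← h] at hwB; exact hwB h0
    · exact hwB h.2
  obtain ⟨y, z, h2, h3, h4, -⟩ := last_exit hw h1
  have hy : y ∈ (B : Set (V n)) := by
    rcases reach_mem h2 with h | h
    · rw [← h]; exact h0
    · exact h.2
  obtain ⟨g1, -, -, g4, g5, g6, g7⟩ := h4
  have hz : z ∉ (B : Set (V n)) := by
    intro hz
    apply h3
    have : (G E ω (B : Set (V n))).Adj y z := ⟨g1, hy, hz, g4, g5, g6, g7⟩
    exact h2.trans this.reachable
  by_cases hF : z ∈ F y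
  · exact Or.inl ⟨y, hy, z, hF, hz, g4, h2, g5, g6, g7⟩
  · refine Or.inr ?_
    unfold BF
    simp only [mem_iUnion]
    exact ⟨y, hy, ⟨z, hF⟩, g7⟩

theorem AF_sub (E : Set (Sym2 (V n))) (B : Set (V n)) (F : V n → Finset (V n)) :
    AF E B F ⊆ AL E B := by
  rintro ω ⟨x, hx, y, hy, h1, h2, h3, h4, h5, h6⟩ hsub
  apply h1
  apply hsub
  have hxy : (G E ω univ).Adj x y :=
    ⟨fun h => h1 (h ▸ hx), mem_univ _, mem_univ _, h2, h4, h5, h6⟩
  exact (reach_mono (subset_univ B) h3).trans hxy.reachable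

theorem prob_le_one {m : ℕ} (a p : unitInterval) (β : NNReal) (s : ℝ) (e : Sym2 (V n)) :
    (prob (n := n) a p β s m (Sum.inr e) : ℝ) ≤ prob (n := n) 1 1 β s m (Sum.inr e) := by
  unfold prob
  simp only
  split_ifs
  · exact p.2.2
  · exact le_rfl
  · exact le_rfl

theorem BF_bound {m : ℕ} (a p : unitInterval) (β : NNReal) (s : ℝ) (hs : 1 < s)
    (B : Finset (V n)) (F : V n → Finset (V n)) {η : ℝ} (hη : 0 ≤ η)
    (hF : ∀ x, ∑' z : {z : V n // z ∉ F x}, (prob (n := n) 1 1 β s m (Sum.inr s(x, (z : V n))) : ℝ)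
      ≤ η) :
    (pm (prob (n := n) a p β s m)).real (BF B F) ≤ B.card * η := by
  have h1 : pm (prob (n := n) a p β s m) (BF B F) ≤ ∑ x ∈ B, ENNReal.ofReal η := by
    unfold BF
    refine (measure_biUnion_finset_le B _).trans (Finset.sum_le_sum fun x _ => ?_)
    refine (measure_iUnion_le _).trans ?_
    have h2 : ∀ z : {z : V n // z ∉ F x}, pm (prob (n := n) a p β s m)
        {ω | ω (Sum.inr s(x, (z : V n))) = true}
        ≤ ENNReal.ofReal (prob (n := n) 1 1 β s m (Sum.inr s(x, (z : V n))) : ℝ) := by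
      intro z
      rw [pm_coord, Pool.Agent.W402.PC.bern_true]
      exact ENNReal.ofReal_le_ofReal (prob_le_one a p β s _)
    refine (ENNReal.tsum_le_tsum h2).trans ?_
    rw [← ENNReal.ofReal_tsum_of_nonneg]
    · exact ENNReal.ofReal_le_ofReal (hF x)
    · intro z
      exact (prob (n := n) 1 1 β s m (Sum.inr s(x, (z : V n)))).2.1
    · exact (prob_summable 1 1 β s hs x).subtype _
  have h3 : ∑ x ∈ B, ENNReal.ofReal η = ENNReal.ofReal (B.card * η) := by
    rw [Finset.sum_const, nsmul_eq_mul, ENNReal.ofReal_mul (by positivity), ENNReal.ofReal_natCast]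
  rw [h3] at h1
  exact ENNReal.toReal_le_of_le_ofReal (by positivity) h1

theorem s_usc : S_usc := by
  intro n m a p β s hs ε hε
  obtain ⟨L, hL⟩ := exists_L (prob (n := n) a p β s m) (EdI m) (show (0 : ℝ) < ε / 4 by linarith)
  let B : Finset (V n) := (CB_fin (n := n) L).toFinset
  have hB : (B : Set (V n)) = CB L L := Set.Finite.coe_toFinset _
  have hB0 : (0 : V n) ∈ B := by
    rw [← Finset.mem_coe, hB]; exact CB_zero L
  let η : ℝ := ε / (4 * (B.card + 1))
  have hη : 0 < η := by positivity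
  have hFex : ∀ x : V n, ∃ F : Finset (V n),
      ∑' z : {z : V n // z ∉ F}, (prob (n := n) 1 1 β s m (Sum.inr s(x, (z : V n))) : ℝ) ≤ η := by
    intro x
    have h1 := tendsto_tsum_compl_atTop_zero
      (fun z : V n => (prob (n := n) 1 1 β s m (Sum.inr s(x, z)) : ℝ))
    obtain ⟨F, hF⟩ := (h1.eventually (gt_mem_nhds hη)).exists
    exact ⟨F, hF.le⟩
  choose F hF using hFex
  let D : Finset (Ix n) := (DF_fin B.finite_toSet F).toFinset
  have hD : (D : Set (Ix n)) = DF B F := Set.Finite.coe_toFinset _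
  have hAF : DepOn (AF (EdI m) (B : Set (V n)) F) (D : Set (Ix n)) := by
    rw [hD]; exact AF_dep _ _ _
  let δ : ℝ := ε / (4 * (D.card + 1))
  have hδ : 0 < δ := by positivity
  refine ⟨δ, hδ, fun a' p' ha hp => ?_⟩
  have hdiff : ∀ c : Ix n, |(prob a p β s m c : ℝ) - prob a' p' β s m c| ≤ δ := by
    intro c
    rcases c with v | e
    · rw [abs_sub_comm]; exact ha
    · unfold prob
      simp only
      split_ifs
      · rw [abs_sub_comm]; exact hp
      · simpa using hδ.le
      · simpa using hδ.le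
  have h1 : (pm (prob (n := n) a' p' β s m)).real (Perc (EdI m) 0)
      ≤ (pm (prob (n := n) a' p' β s m)).real (AL (EdI m) B) :=
    measureReal_mono (Perc_sub_AL _ B.finite_toSet) (measure_ne_top _ _)
  have h2 : (pm (prob (n := n) a' p' β s m)).real (AL (EdI m) B)
      ≤ (pm (prob (n := n) a' p' β s m)).real (AF (EdI m) B F)
        + (pm (prob (n := n) a' p' β s m)).real (BF B F) :=
    (measureReal_mono (AL_sub _ B hB0 F) (measure_ne_top _ _)).trans (measureReal_union_le _ _)
  have h3 := BF_bound (m := m) a' p' β s hs B F hη.le hF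
  have h4 := s_tv (Ix n) (prob (n := n) a p β s m) (prob (n := n) a' p' β s m) D _ hAF
  have h5 : ∑ c ∈ D, |(prob a p β s m c : ℝ) - prob a' p' β s m c| ≤ D.card * δ := by
    refine (Finset.sum_le_sum fun c _ => hdiff c).trans (le_of_eq ?_)
    rw [Finset.sum_const, nsmul_eq_mul]
  have h6 : (pm (prob (n := n) a p β s m)).real (AF (EdI m) B F)
      ≤ (pm (prob (n := n) a p β s m)).real (AL (EdI m) (CB L L)) := by
    rw [hB]
    exact measureReal_mono (AF_sub _ _ _) (measure_ne_top _ _)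
  have h7 : (B.card : ℝ) * η ≤ ε / 4 := by
    have : (B.card : ℝ) * η = ε / 4 * (B.card / (B.card + 1)) := by
      simp only [η]; field_simp
    rw [this]
    have h8 : (B.card : ℝ) / (B.card + 1) ≤ 1 := by
      rw [div_le_one (by positivity)]; linarith
    nlinarith
  have h9 : (D.card : ℝ) * δ ≤ ε / 4 := by
    have : (D.card : ℝ) * δ = ε / 4 * (D.card / (D.card + 1)) := by
      simp only [δ]; field_simp
    rw [this]
    have h8 : (D.card : ℝ) / (D.card + 1) ≤ 1 := by
      rw [div_le_one (by positivity)]; linarith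
    nlinarith
  have h10 := (abs_le.1 (h4.trans (h5.trans h9))).1
  linarith

end Pool.Agent.W148.PC
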